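import Pool.Agent.R677.FV.Galois
import Pool.Agent.Y63.KR.Levels

/-!
# Alternating sums of numbers of characters fixed by automorphisms of the complex numbers
-/

set_option autoImplicit false

open scoped Classical

noncomputable section

namespace Pool.Agent.R615.LV

open Pool.Agent.Y63.KR
open Pool.Agent.Helper884.IC
open Pool.Agent.Y63.AWC (IsIrreducibleCharacter)

/-- The number of irreducible complex characters of `H` whose values are fixed by the automorphism
`σ` of the field of complex numbers. -/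
def numIrrFix (σ : ℂ ≃+* ℂ) (H : Type) [Group H] : ℕ :=
  Nat.card {χ : H → ℂ // IsIrreducibleCharacter χ ∧ ∀ x, σ (χ x) = χ x}

/-- The `p`-rationality level of `χ` is at most `a`: the values of `χ` are fixed by all automorphisms
of the field of complex numbers which fix the roots of unity of order `p ^ a * m`, where `m` is the
`p'`-part of the order of `H`. -/
def IsLevelLE (p a : ℕ) {H : Type} [Group H] (χ : H → ℂ) : Prop :=
  ∀ σ : ℂ ≃+* ℂ, (∀ z : ℂ, z ^ (p ^ a * (Nat.card H / p ^ (Nat.card H).factorization p)) = 1 →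
    σ z = z) → ∀ x, σ (χ x) = χ x

/-- The number of irreducible characters of level at most `a`. -/
def numIrrLE (p a : ℕ) (H : Type) [Group H] : ℕ :=
  Nat.card {χ : H → ℂ // IsIrreducibleCharacter χ ∧ IsLevelLE p a χ}

/-- The number of irreducible characters of level `a` (for `a ≥ 1`). -/
def numIrrLevel (p a : ℕ) (H : Type) [Group H] : ℕ :=
  Nat.card {χ : H → ℂ // IsIrreducibleCharacter χ ∧ IsLevelLE p a χ ∧ ¬ IsLevelLE p (a - 1) χ}

lemma pow_congr' {z : ℂ} {k a b : ℕ} (hz : z ^ k = 1) (h : a ≡ b [MOD k]) : z ^ a = z ^ b := by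
  rw [pow_eq_pow_mod a hz, pow_eq_pow_mod b hz, h]

lemma prim_congr {ζ : ℂ} {k a b : ℕ} (hζ : IsPrimitiveRoot ζ k) (hk : k ≠ 0)
    (h : ζ ^ a = ζ ^ b) : a ≡ b [MOD k] := by
  rw [pow_eq_pow_mod a hζ.pow_eq_one, pow_eq_pow_mod b hζ.pow_eq_one] at h
  exact hζ.pow_inj (Nat.mod_lt _ (Nat.pos_of_ne_zero hk)) (Nat.mod_lt _ (Nat.pos_of_ne_zero hk)) h

/-- an automorphism acts on the `n`-th roots of unity as a power map -/
lemma exists_power (σ : ℂ ≃+* ℂ) {n : ℕ} (hn : n ≠ 0) :
    ∃ s : ℕ, s.Coprime n ∧ ∀ z : ℂ, z ^ n = 1 → σ z = z ^ s := by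
  have hζ := Complex.isPrimitiveRoot_exp n hn
  have hσ : IsPrimitiveRoot (σ (Complex.exp (2 * Real.pi * Complex.I / n))) n :=
    hζ.map_of_injective σ.injective
  have : NeZero n := ⟨hn⟩
  obtain ⟨s, -, hs⟩ := hζ.eq_pow_of_pow_eq_one hσ.pow_eq_one
  refine ⟨s, ?_, ?_⟩
  · rw [← hs] at hσ
    exact (hζ.pow_iff_coprime (Nat.pos_of_ne_zero hn) s).1 hσ
  · intro z hz
    obtain ⟨i, -, rfl⟩ := hζ.eq_pow_of_pow_eq_one hz
    rw [map_pow, ← hs, ← pow_mul, ← pow_mul, mul_comm s i]

lemma card_classes {s : ℕ} {H : Type} [Group H] [Finite H] (hs : s.Coprime (Nat.card H)) :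
    Nat.card {χ : H → ℂ // IsIrreducibleCharacter χ ∧ ∀ x, χ (x ^ s) = χ x} = numFixed s H := by
  have : Fintype H := Fintype.ofFinite H
  have hout : ∀ c : ConjClasses H, ConjClasses.mk c.out = c := fun c => Quotient.out_eq c
  have h := Pool.Agent.R677.FV.brauer (G := H) (ι := ConjClasses H) ConjClasses.mk
    (fun c => c.out) hout (fun g h hgh => ConjClasses.mk_eq_mk_iff_isConj.1 hgh)
    (fun g h => ConjClasses.mk_eq_mk_iff_isConj.2 (isConj_iff.2 ⟨h, rfl⟩).symm) hs
  have e1 : Nat.card {χ : H → ℂ // IsIrreducibleCharacter χ ∧ ∀ x, χ (x ^ s) = χ x} =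
      ((Irr H).filter (fun chi => Pool.Agent.R677.FV.P s chi = chi)).card := by
    rw [← Fintype.card_coe, ← Nat.card_eq_fintype_card]
    refine Nat.card_congr (Equiv.subtypeEquivRight fun χ => ?_)
    rw [Finset.mem_filter, mem_Irr]
    refine and_congr Iff.rfl ?_
    rw [funext_iff]
    rfl
  have e2 : numFixed s H = (Finset.univ.filter
      (fun c : ConjClasses H => ConjClasses.mk (c.out ^ s) = c)).card := by
    unfold numFixed
    rw [← Fintype.card_subtype, ← Nat.card_eq_fintype_card]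
    refine Nat.card_congr (Equiv.subtypeEquivRight fun c => ?_)
    constructor
    · rintro ⟨x, hx, h1⟩
      have h2 : IsConj x c.out := ConjClasses.mk_eq_mk_iff_isConj.1 (hx.trans (hout c).symm)
      obtain ⟨y, hy⟩ := isConj_iff.1 h2
      rw [← hy, conj_pow, ← hx]
      exact ConjClasses.mk_eq_mk_iff_isConj.2 ((isConj_iff.2 ⟨y, rfl⟩).symm.trans h1.symm)
    · intro h1
      exact ⟨c.out, hout c, ConjClasses.mk_eq_mk_iff_isConj.1 ((hout c).trans h1.symm)⟩
  rw [e1, e2]
  convert h

lemma sigma_val {σ : ℂ ≃+* ℂ} {s n : ℕ} (hσ : ∀ z : ℂ, z ^ n = 1 → σ z = z ^ s)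
    {H : Type} [Group H] [Finite H] (hn : Nat.card H ∣ n) {χ : H → ℂ}
    (hχ : IsIrreducibleCharacter χ) (x : H) : σ (χ x) = χ (x ^ s) := by
  have : Fintype H := Fintype.ofFinite H
  refine Pool.Agent.R677.FV.galois_value (Pool.Agent.R721.CD.IsRepChar.of_irr hχ) σ s (fun z hz => hσ z ?_) x
  obtain ⟨k, rfl⟩ := hn
  rw [pow_mul, hz, one_pow]

lemma numIrrFix_eq {σ : ℂ ≃+* ℂ} {s n : ℕ} (hσ : ∀ z : ℂ, z ^ n = 1 → σ z = z ^ s)
    (hs : s.Coprime n) {H : Type} [Group H] [Finite H] (hn : Nat.card H ∣ n) :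
    numIrrFix σ H = numFixed s H := by
  rw [← card_classes (hs.coprime_dvd_right hn)]
  unfold numIrrFix
  refine Nat.card_congr (Equiv.subtypeEquivRight fun χ => and_congr_right fun hχ => ?_)
  refine forall_congr' fun x => ?_
  rw [sigma_val hσ hn hχ]

section

variable {p : ℕ} {G : Type} [Group G]

lemma numFixedRegular_congr [Fact p.Prime] [Finite G] {s s' : ℕ} (H : Subgroup G)
    (hs : s ≡ s' [MOD Nat.card G / p ^ (Nat.card G).factorization p]) :
    numFixedRegular p s H = numFixedRegular p s' H := by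
  have hp : p.Prime := Fact.out
  unfold numFixedRegular
  refine Nat.card_congr (Equiv.subtypeEquivRight fun c => ?_)
  refine exists_congr fun x => and_congr_right fun _ => ?_
  refine and_congr_left fun hx => ?_
  have hd : orderOf x ∣ Nat.card G / p ^ (Nat.card G).factorization p := by
    have h1 : orderOf x ∣ Nat.card G :=
      (orderOf_dvd_natCard x).trans (Subgroup.card_subgroup_dvd_card H)
    rw [← Nat.ordProj_mul_ordCompl_eq_self (Nat.card G) p] at h1
    exact Nat.Coprime.dvd_of_dvd_mul_left (Nat.Coprime.pow_right _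
      ((Nat.Prime.coprime_iff_not_dvd hp).mpr hx).symm) h1
  have h2 : x ^ s = x ^ s' := pow_eq_pow_iff_modEq.mpr (hs.of_dvd hd)
  rw [h2]

/-- **Galois form, for characters.** -/
theorem fix_congr [Fact p.Prime] [Finite G] (σ σ' : ℂ ≃+* ℂ)
    (h : ∀ z : ℂ, z ^ (Nat.card G / p ^ (Nat.card G).factorization p) = 1 → σ z = σ' z) :
    alternatingSum p G (fun H => (numIrrFix σ H : ℤ)) =
      alternatingSum p G (fun H => (numIrrFix σ' H : ℤ)) := by
  obtain ⟨s, hs, hσ⟩ := exists_power σ (Nat.card_pos (α := G)).ne'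
  obtain ⟨s', hs', hσ'⟩ := exists_power σ' (Nat.card_pos (α := G)).ne'
  have e : ∀ H : Subgroup G, numIrrFix σ H = numFixed s H := fun H =>
    numIrrFix_eq hσ hs (Subgroup.card_subgroup_dvd_card H)
  have e' : ∀ H : Subgroup G, numIrrFix σ' H = numFixed s' H := fun H =>
    numIrrFix_eq hσ' hs' (Subgroup.card_subgroup_dvd_card H)
  have hm : s ≡ s' [MOD Nat.card G / p ^ (Nat.card G).factorization p] := by
    set m := Nat.card G / p ^ (Nat.card G).factorization p with hm
    have hmd : m ∣ Nat.card G := Nat.ordCompl_dvd _ _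
    have hm0 : m ≠ 0 := fun h0 => (Nat.card_pos (α := G)).ne' (Nat.eq_zero_of_zero_dvd (h0 ▸ hmd))
    have hζ := Complex.isPrimitiveRoot_exp m hm0
    have h1 := h _ hζ.pow_eq_one
    have h2 : (Complex.exp (2 * Real.pi * Complex.I / m)) ^ Nat.card G = 1 := by
      obtain ⟨k, hk⟩ := hmd
      rw [hk, pow_mul, hζ.pow_eq_one, one_pow]
    rw [hσ _ h2, hσ' _ h2] at h1
    exact prim_congr hζ hm0 h1
  simp only [e, e']
  rw [galois s, galois s']
  congr 1
  funext H
  rw [numFixedRegular_congr H hm]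

/-- the number of characters of level at most `a` -/
theorem numIrrLE_eq [Fact p.Prime] [Finite G] (a : ℕ) (ha : p = 2 → 2 ≤ a) :
    ∃ t : ℕ, t ≡ 1 [MOD Nat.card G / p ^ (Nat.card G).factorization p] ∧
      ∀ H : Subgroup G, numIrrLE p a H = numFixed t H := by
  have hp : p.Prime := Fact.out
  have hG0 : Nat.card G ≠ 0 := Nat.card_pos.ne'
  set n := (Nat.card G).factorization p with hn
  set m := Nat.card G / p ^ n with hm
  have hmv : p ^ n * m = Nat.card G := Nat.ordProj_mul_ordCompl_eq_self _ _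
  have hpm : ¬ p ∣ m := Nat.not_dvd_ordCompl hp hG0
  obtain ⟨t, ht1, ht2, ht3, ht4⟩ := exists_exponent (p := p) ha (n + a) m hpm
  have hpt : t.Coprime p := ((Nat.Prime.coprime_iff_not_dvd hp).2 ht1).symm
  have hmt : t.Coprime m := by
    have := ht3.gcd_eq
    rw [Nat.gcd_one_left] at this
    exact this
  have hN0 : p ^ (n + a) * m ≠ 0 := mul_ne_zero (pow_pos hp.pos _).ne'
    (fun h0 => hG0 (by rw [← hmv, h0, mul_zero]))
  have htN : t.Coprime (p ^ (n + a) * m) := Nat.Coprime.mul_right (hpt.pow_right _) hmt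
  have htam : t ≡ 1 [MOD p ^ a * m] := by
    rw [← Nat.modEq_and_modEq_iff_modEq_mul (Nat.Coprime.pow_left _
      ((Nat.Prime.coprime_iff_not_dvd hp).2 hpm))]
    exact ⟨ht2, ht3⟩
  refine ⟨t, ht3, fun H => ?_⟩
  have hHG : Nat.card H ∣ Nat.card G := Subgroup.card_subgroup_dvd_card H
  have hH0 : Nat.card H ≠ 0 := Nat.card_pos.ne'
  have hGN : Nat.card G ∣ p ^ (n + a) * m := by
    rw [← hmv]
    exact mul_dvd_mul (pow_dvd_pow p (Nat.le_add_right n a)) (dvd_refl m)
  have hmH : Nat.card H / p ^ (Nat.card H).factorization p ∣ m :=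
    Nat.ordCompl_dvd_ordCompl_of_dvd hHG p
  rw [← card_classes (Nat.Coprime.coprime_dvd_right (hHG.trans hGN) htN)]
  unfold numIrrLE
  refine Nat.card_congr (Equiv.subtypeEquivRight fun χ => and_congr_right fun hχ => ?_)
  constructor
  · intro hlev x
    obtain ⟨σ, hσ⟩ := Pool.Agent.R677.FV.exists_sigma (p ^ (n + a) * m) hN0 t htN
    rw [← sigma_val hσ (hHG.trans hGN) hχ]
    refine hlev σ (fun z hz => ?_) x
    have hz2 : z ^ (p ^ a * m) = 1 := by
      obtain ⟨k, hk⟩ := mul_dvd_mul (dvd_refl (p ^ a)) hmH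
      rw [hk, pow_mul, hz, one_pow]
    have hz3 : z ^ (p ^ (n + a) * m) = 1 := by
      rw [pow_add, mul_assoc, mul_comm, pow_mul, hz2, one_pow]
    rw [hσ z hz3]
    rw [pow_congr' hz2 htam, pow_one]
  · intro hfix σ hσ x
    set mH := Nat.card H / p ^ (Nat.card H).factorization p with hmHd
    have hmvH : p ^ (Nat.card H).factorization p * mH = Nat.card H :=
      Nat.ordProj_mul_ordCompl_eq_self _ _
    have hn0 : p ^ (a + 1) * Nat.card H ≠ 0 := mul_ne_zero (pow_pos hp.pos _).ne' hH0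
    obtain ⟨s, hs, hσs⟩ := exists_power σ hn0
    rw [sigma_val hσs (dvd_mul_left _ _) hχ]
    have hps : ¬ p ∣ s := by
      have h1 : s.Coprime p := hs.coprime_dvd_right
        ((dvd_pow_self p (Nat.succ_ne_zero a)).trans (dvd_mul_right _ _))
      exact (Nat.Prime.coprime_iff_not_dvd hp).1 h1.symm
    have hmH0 : p ^ a * mH ≠ 0 := mul_ne_zero (pow_pos hp.pos _).ne'
      (fun h0 => hH0 (by rw [← hmvH, h0, mul_zero]))
    have hs1 : s ≡ 1 [MOD p ^ a * mH] := by
      have hζ := Complex.isPrimitiveRoot_exp (p ^ a * mH) hmH0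
      have h1 := hσ _ hζ.pow_eq_one
      have h2 : (Complex.exp (2 * Real.pi * Complex.I / (p ^ a * mH : ℕ))) ^
          (p ^ (a + 1) * Nat.card H) = 1 := by
        obtain ⟨k, hk⟩ : p ^ a * mH ∣ p ^ (a + 1) * Nat.card H :=
          mul_dvd_mul (pow_dvd_pow p (Nat.le_succ a)) (Nat.ordCompl_dvd _ _)
        rw [hk, pow_mul, hζ.pow_eq_one, one_pow]
      rw [hσs _ h2] at h1
      refine prim_congr hζ hmH0 ?_
      rw [h1, pow_one]
    obtain ⟨j, hj⟩ := ht4 s hps (hs1.of_dvd (dvd_mul_right _ _))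
    have hle : (Nat.card H).factorization p ≤ n + a :=
      ((Nat.factorization_le_iff_dvd hH0 hG0).2 hHG p).trans (Nat.le_add_right n a)
    have hsj : s ≡ t ^ j [MOD Nat.card H] := by
      rw [← hmvH, ← Nat.modEq_and_modEq_iff_modEq_mul]
      · refine ⟨hj.of_dvd (pow_dvd_pow p hle), ?_⟩
        have h2 : t ^ j ≡ 1 ^ j [MOD mH] := (ht3.of_dvd hmH).pow j
        rw [one_pow] at h2
        exact (hs1.of_dvd (dvd_mul_left _ _)).trans h2.symm
      · exact Nat.Coprime.pow_left _ ((Nat.Prime.coprime_iff_not_dvd hp).mpr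
          (Nat.not_dvd_ordCompl hp hH0))
    have h5 : x ^ s = x ^ t ^ j := by
      rw [pow_eq_pow_iff_modEq]
      exact hsj.of_dvd (orderOf_dvd_natCard x)
    have h6 : ∀ (i : ℕ) (y : H), χ (y ^ t ^ i) = χ y := by
      intro i
      induction i with
      | zero => intro y; rw [pow_zero, pow_one]
      | succ i ih => intro y; rw [pow_succ, pow_mul, hfix, ih]
    rw [h5, h6]

/-- the alternating sum of the numbers of characters of level at most `a` does not depend on `a` -/
theorem sum_LE [Fact p.Prime] [Finite G] (a : ℕ) (ha : p = 2 → 2 ≤ a) :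
    alternatingSum p G (fun H => (numIrrLE p a H : ℤ)) =
      alternatingSum p G (fun H => (Nat.card (ConjClasses H) : ℤ)) := by
  obtain ⟨t, ht1, ht⟩ := numIrrLE_eq (p := p) (G := G) a ha
  have e1 : (fun H : Subgroup G => (numIrrLE p a H : ℤ)) =
      fun H : Subgroup G => (numFixed t H : ℤ) := funext fun H => by rw [ht]
  have e2 : (fun H : Subgroup G => (Nat.card (ConjClasses H) : ℤ)) =
      fun H : Subgroup G => (numFixed 1 H : ℤ) := funext fun H => by rw [numFixed_one]
  have e3 : (fun H : Subgroup G => (numFixedRegular p t H : ℤ)) =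
      fun H : Subgroup G => (numFixedRegular p 1 H : ℤ) :=
    funext fun H => by rw [numFixedRegular_eq H ht1]
  rw [e1, e2, galois t, galois 1, e3]

lemma level_mono [Fact p.Prime] {H : Type} [Group H] {a b : ℕ} (hab : a ≤ b) {χ : H → ℂ}
    (h : IsLevelLE p a χ) : IsLevelLE p b χ := by
  intro σ hσ x
  refine h σ (fun z hz => hσ z ?_) x
  obtain ⟨k, hk⟩ := mul_dvd_mul (pow_dvd_pow p hab)
    (dvd_refl (Nat.card H / p ^ (Nat.card H).factorization p))
  rw [hk, pow_mul, hz, one_pow]

lemma irr_finite' {H : Type} [Group H] [Finite H] : Finite {χ : H → ℂ // IsIrreducibleCharacter χ} := by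
  have : Fintype H := Fintype.ofFinite H
  have h : {χ : H → ℂ | IsIrreducibleCharacter χ}.Finite := by
    refine (Finset.finite_toSet (Irr H)).subset fun χ hχ => ?_
    exact mem_Irr.2 hχ
  exact h.to_subtype

lemma numLevel_add' [Fact p.Prime] {H : Type} [Group H] [Finite H] (a : ℕ) :
    (numIrrLevel p a H : ℤ) = (numIrrLE p a H : ℤ) - (numIrrLE p (a - 1) H : ℤ) := by
  have := irr_finite' (H := H)
  have key : numIrrLE p a H = numIrrLevel p a H + numIrrLE p (a - 1) H := by
    let P : {χ : H → ℂ // IsIrreducibleCharacter χ} → Prop := fun χ => IsLevelLE p a χ.1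
    let Q : {χ : H → ℂ // IsIrreducibleCharacter χ} → Prop := fun χ => IsLevelLE p a χ.1 ∧
      ¬ IsLevelLE p (a - 1) χ.1
    let R : {χ : H → ℂ // IsIrreducibleCharacter χ} → Prop := fun χ => IsLevelLE p (a - 1) χ.1
    have eP : numIrrLE p a H = Nat.card {χ // P χ} := by
      unfold numIrrLE
      exact Nat.card_congr (Equiv.subtypeSubtypeEquivSubtypeInter _ _).symm
    have eQ : numIrrLevel p a H = Nat.card {χ // Q χ} := by
      unfold numIrrLevel
      exact Nat.card_congr (Equiv.subtypeSubtypeEquivSubtypeInter _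
        (fun χ : H → ℂ => IsLevelLE p a χ ∧ ¬ IsLevelLE p (a - 1) χ)).symm
    have eR : numIrrLE p (a - 1) H = Nat.card {χ // R χ} := by
      unfold numIrrLE
      exact Nat.card_congr (Equiv.subtypeSubtypeEquivSubtypeInter _ _).symm
    rw [eP, eQ, eR, ← Nat.card_sum]
    have h1 : ∀ c, P c ↔ (Q c ∨ R c) := by
      intro c
      constructor
      · intro h
        by_cases h2 : R c
        · exact Or.inr h2
        · exact Or.inl ⟨h, h2⟩
      · rintro (h | h)
        · exact h.1
        · exact level_mono (Nat.sub_le a 1) h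
    have h2 : Disjoint Q R := by
      rw [Pi.disjoint_iff]
      intro c
      rw [Prop.disjoint_iff]
      rintro ⟨h3, h4⟩
      exact h3.2 h4
    exact Nat.card_congr ((Equiv.subtypeEquivRight h1).trans (subtypeOrEquiv Q R h2))
  rw [key]
  push_cast
  ring

/-- **Vanishing of the positive levels.** -/
theorem sum_level' [Fact p.Prime] [Finite G] (a : ℕ) (_ : 1 ≤ a) (ha : p = 2 → 3 ≤ a) :
    alternatingSum p G (fun H => (numIrrLevel p a H : ℤ)) = 0 := by
  have e : (fun H : Subgroup G => (numIrrLevel p a H : ℤ)) =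
      fun H : Subgroup G => (numIrrLE p a H : ℤ) - (numIrrLE p (a - 1) H : ℤ) :=
    funext fun H => numLevel_add' a
  rw [e, alternatingSum_sub, sum_LE a (fun h => by have := ha h; omega),
    sum_LE (a - 1) (fun h => by have := ha h; omega), sub_self]

end

end Pool.Agent.R615.LV
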