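import Pool.Agent.Y63.NV.Krc

/-!
# The Alperin weight conjecture and homomorphisms from surface groups
-/

set_option autoImplicit false

open scoped Classical

noncomputable section

namespace Pool.Agent.R615.LV

open Pool.Agent.Y63.KR
open Pool.Agent.Y63.NV
open Pool.Agent.Y63.AWC (numDefectZero numWeights numRegularClasses)

section

variable {p : ℕ} [hp : Fact p.Prime] {G : Type} [Group G]

/-- the value of the reduced Euler characteristic modulo powers of `p` -/
theorem chi_mod [Finite G] {N g : ℕ} (hg : 2 ≤ g) (hd : p ^ N * (p - 1) ∣ g - 1) :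
    ∃ c : ℤ, surfaceChi p g G + (numDefectZero p G : ℚ) = (p : ℚ) ^ (N + 1) * c := by
  obtain ⟨n, rfl⟩ : ∃ n, g = n + 1 := ⟨g - 1, by omega⟩
  have hn0 : n ≠ 0 := by omega
  rw [Nat.add_sub_cancel] at hd
  obtain ⟨c, hc⟩ := alternatingSum_mod' (p := p) (G := G) hn0 hd
  refine ⟨-c, ?_⟩
  rw [surfaceChi_eq]
  have h2 := congrArg (Int.cast : ℤ → ℚ) hc
  push_cast at h2 ⊢
  linarith

/-- the Knörr-Robinson conjecture for `G` in terms of alternating sums -/
theorem krc_alt [Finite G] : KRC p G ↔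
    alternatingSum p G (fun H => (Nat.card (ConjClasses H) : ℤ)) = (numDefectZero p G : ℤ) := by
  have h := altSum_classes (p := p) (G := G)
  unfold KRC
  constructor
  · intro h1
    rw [h1] at h
    have : ((alternatingSum p G (fun H => (Nat.card (ConjClasses H) : ℤ)) : ℤ) : ℚ) =
      ((numDefectZero p G : ℤ) : ℚ) := by
      rw [h]; push_cast; ring
    exact_mod_cast this
  · intro h1
    rw [h1] at h
    push_cast at h
    linarith

/-- all congruences -/
def AllCong (p : ℕ) (G : Type) [Group G] : Prop :=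
  ∀ N g : ℕ, 2 ≤ g → p ^ N * (p - 1) ∣ g - 1 →
    ∃ c : ℤ, surfaceChi p g G - surfaceChi p 1 G = (p : ℚ) ^ (N + 1) * c

/-- one congruence modulo each power of `p` -/
def SomeCong (p : ℕ) (G : Type) [Group G] : Prop :=
  ∀ N : ℕ, ∃ g : ℕ, 2 ≤ g ∧ p ^ N * (p - 1) ∣ g - 1 ∧
    ∃ c : ℤ, surfaceChi p g G - surfaceChi p 1 G = (p : ℚ) ^ (N + 1) * c

theorem all_of_krc [Finite G] (h : KRC p G) : AllCong p G := by
  intro N g hg hd
  obtain ⟨c, hc⟩ := chi_mod (p := p) (G := G) hg hd
  refine ⟨c, ?_⟩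
  have h1 := surfaceChi_eq (p := p) (G := G) 0
  rw [sum_surfaceCount_one, krc_alt.1 h] at h1
  rw [h1]
  push_cast
  linarith

theorem some_of_all (h : AllCong p G) : SomeCong p G := by
  intro N
  have hp2 := hp.out.two_le
  have h1 : 0 < p ^ N := pow_pos hp.out.pos _
  have h2 : 0 < p - 1 := by omega
  have h3 : 0 < p ^ N * (p - 1) := Nat.mul_pos h1 h2
  refine ⟨p ^ N * (p - 1) + 1, by omega, by rw [Nat.add_sub_cancel], ?_⟩
  exact h N _ (by omega) (by rw [Nat.add_sub_cancel])

theorem krc_of_some [Finite G] (h : SomeCong p G) : KRC p G := by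
  rw [krc_alt]
  by_contra hne
  set D : ℤ := alternatingSum p G (fun H => (Nat.card (ConjClasses H) : ℤ)) -
    (numDefectZero p G : ℤ) with hD
  have hD0 : D ≠ 0 := sub_ne_zero.mpr hne
  obtain ⟨N, hN⟩ : ∃ N : ℕ, |D| < (p : ℤ) ^ N := by
    refine ⟨D.natAbs, ?_⟩
    rw [Int.abs_eq_natAbs]
    exact_mod_cast Nat.lt_pow_self hp.out.one_lt
  obtain ⟨g, hg, hd, c, hc⟩ := h N
  obtain ⟨c', hc'⟩ := chi_mod (p := p) (G := G) hg hd
  have h1 := surfaceChi_eq (p := p) (G := G) 0
  rw [sum_surfaceCount_one] at h1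
  rw [h1] at hc
  have h2 : (D : ℚ) = (p : ℚ) ^ (N + 1) * (c - c') := by
    rw [hD]
    push_cast
    linarith
  have h3 : D = (p : ℤ) ^ (N + 1) * (c - c') := by exact_mod_cast h2
  have h4 : (p : ℤ) ^ N ∣ D := by
    rw [h3, pow_succ, mul_assoc]
    exact dvd_mul_right _ _
  exact hD0 (Int.eq_zero_of_abs_lt_dvd h4 hN)

end

/-- the weight conjecture for the groups which are extensions of groups in `X` by `p`-groups follows
from the Knörr-Robinson conjecture for reduced groups in `X` -/
theorem awc_of_krc (p : ℕ) [Fact p.Prime] (X : ∀ (H : Type) [Group H], Prop) (hX : Closed p X)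
    (h : ∀ (H : Type) [Group H] [Finite H], X H → Reduced p H → KRC p H) :
    ∀ (n : ℕ) (Γ : Type) [Group Γ] [Finite Γ], Nat.card Γ ≤ n → XP p X Γ →
        numRegularClasses p Γ = numWeights p Γ := by
  refine reduction' p X hX ?_
  intro H _ _ hH hR hsmall
  have h1 := krc_lw.1 (h H hH hR)
  rw [alternatingSum_single] at h1
  · have h2 := Pool.Agent.Y63.AWC.numRegularClasses_congr (p := p)
      (Subgroup.topEquiv (G := H))
    have h3 := Pool.Agent.Y63.AWC.numWeights_congr (p := p) (Subgroup.topEquiv (G := H))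
    rw [h2, h3] at h1
    have := sub_eq_zero.1 h1
    exact_mod_cast this
  · intro σ hσ hne
    have hXP : XP p X (chainStabilizer σ) :=
      (xp_closed p X hX).sub H ⟨⊤, inferInstance,
        hX.iso _ _ hH ⟨Subgroup.topEquiv.symm⟩, pgroup_top p H⟩ _
    change (numRegularClasses p (chainStabilizer σ) : ℤ) -
      numWeights p (chainStabilizer σ) = 0
    rw [hsmall (chainStabilizer σ) hXP (stab_lt hR.radical hσ hne), sub_self]

/-- **The weight conjecture and surface groups.** -/
theorem awc_surface (p : ℕ) [Fact p.Prime] (X : ∀ (H : Type) [Group H], Prop)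
    (hX : Closed p X) :
    ((∀ (Γ : Type) [Group Γ] [Finite Γ] (G : Subgroup Γ) [G.Normal], X G → IsPGroup p (Γ ⧸ G) →
      numRegularClasses p Γ = numWeights p Γ) →
      ∀ (H : Type) [Group H] [Finite H], X H → AllCong p H) ∧
    ((∀ (H : Type) [Group H] [Finite H], X H → Reduced p H → SomeCong p H) →
      ∀ (Γ : Type) [Group Γ] [Finite Γ] (G : Subgroup Γ) [G.Normal], X G → IsPGroup p (Γ ⧸ G) →
        numRegularClasses p Γ = numWeights p Γ) := by
  constructor
  · intro h H _ _ hH
    refine all_of_krc (krc_lw.2 ?_)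
    unfold alternatingSum
    refine finsum_eq_zero_of_forall_eq_zero fun c => ?_
    change (-1) ^ c.out.1.ncard * ((numRegularClasses p (chainStabilizer c.out.1) : ℤ) -
      numWeights p (chainStabilizer c.out.1)) = 0
    rw [h (chainStabilizer c.out.1) ⊤ (hX.iso _ _ (hX.sub H hH (chainStabilizer c.out.1))
      ⟨Subgroup.topEquiv.symm⟩) (pgroup_top p _), sub_self, mul_zero]
  · intro h Γ _ _ G hG hXG hpG
    exact awc_of_krc p X hX (fun H _ _ hH hR => krc_of_some (h H hH hR)) (Nat.card Γ) Γ le_rfl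
      ⟨G, hG, hXG, hpG⟩

end Pool.Agent.R615.LV
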